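import Mathlib

/-!
Matrices with constant entries off one row and one column: the kernel.
-/

set_option autoImplicit false
set_option linter.unusedSectionVars false
set_option linter.unusedSimpArgs false

namespace Pool.Agent.X263.At

open Matrix

section
variable {k : Type*} [Field k] {K L : Type*} [Fintype K] [Fintype L]

/-- a matrix is determined by a maximal invertible minor -/
theorem minor (b : Matrix K L k) : ∃ (t : ℕ) (α : Fin t → K) (c : Fin t → L),
    (b.submatrix α c).det ≠ 0 ∧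
    ∀ i j, b i j = ∑ q, ∑ s, b i (c q) * (b.submatrix α c)⁻¹ q s * b (α s) j := by
  classical
  let P : ℕ → Prop := fun t => ∃ (α : Fin t → K) (c : Fin t → L), (b.submatrix α c).det ≠ 0
  have hinj : ∀ (t : ℕ) (α : Fin t → K) (c : Fin t → L), (b.submatrix α c).det ≠ 0 →
      Function.Injective α := by
    intro t α c h x y hxy
    by_contra hne
    apply h
    apply Matrix.det_zero_of_row_eq hne
    ext j
    rw [submatrix_apply, submatrix_apply, hxy]
  have hle : ∀ t, P t → t ≤ Fintype.card K := by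
    rintro t ⟨α, c, h⟩
    have := Fintype.card_le_of_injective α (hinj t α c h)
    rwa [Fintype.card_fin] at this
  have h0 : P 0 := ⟨Fin.elim0, Fin.elim0, by rw [Matrix.det_isEmpty]; exact one_ne_zero⟩
  obtain ⟨t, ht⟩ : ∃ t, t = Nat.findGreatest P (Fintype.card K) := ⟨_, rfl⟩
  have hPt : P t := by
    rw [ht]
    exact Nat.findGreatest_spec (Nat.zero_le _) h0
  have hmax : ¬ P (t + 1) := by
    intro h
    have := Nat.le_findGreatest (hle _ h) h
    omega
  obtain ⟨α, c, hN⟩ := hPt
  refine ⟨t, α, c, hN, fun i j => ?_⟩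
  obtain ⟨N, hNe⟩ : ∃ N, N = b.submatrix α c := ⟨_, rfl⟩
  rw [← hNe] at hN ⊢
  have hu : IsUnit N.det := isUnit_iff_ne_zero.2 hN
  let _ := N.invertibleOfIsUnitDet hu
  -- the bordered minor vanishes
  have h1 : (fromBlocks N (b.submatrix α (fun _ : Unit => j)) (b.submatrix (fun _ : Unit => i) c)
      (b.submatrix (fun _ : Unit => i) (fun _ : Unit => j))).det = 0 := by
    by_contra hne
    apply hmax
    let e : Fin (t + 1) ≃ Fin t ⊕ Unit :=
      (finSumFinEquiv (m := t) (n := 1)).symm.trans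
        (Equiv.sumCongr (Equiv.refl _) (Equiv.ofUnique (Fin 1) Unit))
    refine ⟨fun x => Sum.elim α (fun _ => i) (e x), fun x => Sum.elim c (fun _ => j) (e x), ?_⟩
    intro h2
    apply hne
    rw [← Matrix.det_submatrix_equiv_self e, ← h2]
    congr 1
    ext x y
    rw [submatrix_apply, submatrix_apply]
    rcases e x with p | p <;> rcases e y with q | q
    · rw [hNe]; rfl
    · rfl
    · rfl
    · rfl
  rw [det_fromBlocks₁₁] at h1
  have h2 := (mul_eq_zero.1 h1).resolve_left hN
  rw [Matrix.det_unique, Matrix.sub_apply, sub_eq_zero] at h2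
  refine h2.trans ?_
  rw [Matrix.mul_apply, Finset.sum_comm]
  refine Finset.sum_congr rfl fun s _ => ?_
  rw [Matrix.mul_apply, Finset.sum_mul, Matrix.invOf_eq_nonsing_inv]
  rfl

end

section
variable {k : Type*} [Field k] {K L : Type} [Fintype K] [Fintype L]
  {S : Type*} [Ring S] [Algebra k S] [Nontrivial S]

/-- the kernel of a matrix with constant entries off one row and one column -/
theorem core (a : K → L → S) (i₀ : K) (j₀ : L)
    (hc : ∀ i j, i ≠ i₀ → j ≠ j₀ → ∃ r : k, a i j = algebraMap k S r) :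
    ∃ (T : Type) (_ : Fintype T) (φ : T → K) (c : K → T → S) (z₁ z₂ : S),
      Function.Injective φ ∧ z₁ ≠ 0 ∧ z₂ ≠ 0 ∧
      ∀ (M : Type*) [AddCommGroup M] [Module S M], (∀ x : M, z₁ • x = 0 → x = 0) →
        (∀ x : M, z₂ • x = 0 → x = 0) →
        (∀ x : K → M, (∀ i, i ∉ Set.range φ → x i = 0) → (∀ j, ∑ i, a i j • x i = 0) → x = 0) ∧
        (∀ x : K → M, (∀ u, ∑ i, c i u • x i = 0) → ∀ j, ∑ i, a i j • x i = 0) := by
  classical
  obtain ⟨b, hb⟩ : ∃ b : Matrix K L k, b = fun i j =>
    if h : i ≠ i₀ ∧ j ≠ j₀ then (hc i j h.1 h.2).choose else 0 := ⟨_, rfl⟩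
  have hb1 : ∀ i j, i ≠ i₀ → j ≠ j₀ → a i j = algebraMap k S (b i j) := fun i j h1 h2 => by
    have h : b i j = (hc i j h1 h2).choose := by
      rw [hb]
      exact dif_pos ⟨h1, h2⟩
    rw [h]
    exact (hc i j h1 h2).choose_spec
  have hb2 : ∀ j, b i₀ j = 0 := fun j => by
    rw [hb]
    exact dif_neg fun h => h.1 rfl
  have hb3 : ∀ i, b i j₀ = 0 := fun i => by
    rw [hb]
    exact dif_neg fun h => h.2 rfl
  obtain ⟨t, α, c, hN, hbf⟩ := minor b
  obtain ⟨N, hNe⟩ : ∃ N, N = b.submatrix α c := ⟨_, rfl⟩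
  rw [← hNe] at hN hbf
  have hu : IsUnit N.det := isUnit_iff_ne_zero.2 hN
  have hα : ∀ s, α s ≠ i₀ := fun s h => hN (by
    apply Matrix.det_eq_zero_of_row_eq_zero s
    intro q
    rw [hNe, submatrix_apply, h, hb2])
  have hcj : ∀ q, c q ≠ j₀ := fun q h => hN (by
    apply Matrix.det_eq_zero_of_column_eq_zero q
    intro s
    rw [hNe, submatrix_apply, h, hb3])
  have hαi : Function.Injective α := fun x y hxy => by
    by_contra hne
    apply hN
    apply Matrix.det_zero_of_row_eq hne
    ext j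
    rw [hNe, submatrix_apply, submatrix_apply, hxy]
  have hNN : ∀ s s', ∑ q, b (α s) (c q) * N⁻¹ q s' = if s = s' then 1 else 0 := fun s s' => by
    have h := congrFun (congrFun (Matrix.mul_nonsing_inv N hu) s) s'
    rw [Matrix.mul_apply, Matrix.one_apply] at h
    rw [← h]
    refine Finset.sum_congr rfl fun q _ => ?_
    rw [hNe]
    rfl
  obtain ⟨μ, hμ⟩ : ∃ μ : Fin t → L → k, μ = fun q j => ∑ s, N⁻¹ q s * b (α s) j := ⟨_, rfl⟩
  obtain ⟨R, hR⟩ : ∃ R : L → S, R = fun j =>
    a i₀ j - ∑ q, algebraMap k S (μ q j) * a i₀ (c q) := ⟨_, rfl⟩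
  obtain ⟨σ, hσ⟩ : ∃ σ : Fin t → S, σ = fun q =>
    ∑ s, algebraMap k S (N⁻¹ q s) * a (α s) j₀ := ⟨_, rfl⟩
  obtain ⟨C, hC⟩ : ∃ C : K → S, C = fun i => a i j₀ - ∑ q, σ q * a i (c q) := ⟨_, rfl⟩
  have hCα : ∀ s, C (α s) = 0 := fun s => by
    rw [hC]
    simp only
    rw [sub_eq_zero]
    symm
    calc ∑ q, σ q * a (α s) (c q)
        = ∑ q, ∑ s', algebraMap k S (b (α s) (c q) * N⁻¹ q s') * a (α s') j₀ := by
          refine Finset.sum_congr rfl fun q _ => ?_
          rw [hσ, hb1 _ _ (hα s) (hcj q)]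
          simp only
          rw [Finset.sum_mul]
          refine Finset.sum_congr rfl fun s' _ => ?_
          rw [← Algebra.commutes, ← mul_assoc, ← map_mul]
      _ = ∑ s', algebraMap k S (∑ q, b (α s) (c q) * N⁻¹ q s') * a (α s') j₀ := by
          rw [Finset.sum_comm]
          refine Finset.sum_congr rfl fun s' _ => ?_
          rw [map_sum, Finset.sum_mul]
      _ = a (α s) j₀ := by
          simp only [hNN]
          rw [Finset.sum_eq_single s]
          · simp
          · intro s' _ h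
            rw [if_neg (Ne.symm h), map_zero, zero_mul]
          · intro h
            exact absurd (Finset.mem_univ _) h
  have hRi : ∀ i j, i ≠ i₀ → j ≠ j₀ →
      a i j = ∑ q, algebraMap k S (μ q j) * a i (c q) := fun i j h1 h2 => by
    rw [hb1 i j h1 h2, hbf i j, map_sum]
    refine Finset.sum_congr rfl fun q _ => ?_
    rw [hb1 i (c q) h1 (hcj q), ← map_mul, hμ]
    congr 1
    simp only
    rw [Finset.sum_mul]
    exact Finset.sum_congr rfl fun s _ => by ring
  -- the cases
  obtain ⟨ρ₁, hρ₁⟩ : ∃ ρ₁ : Prop, ρ₁ ↔ (∃ j, j ≠ j₀ ∧ R j ≠ 0) ∨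
    ((∀ i, i ≠ i₀ → C i = 0) ∧ C i₀ ≠ 0) := ⟨_, Iff.rfl⟩
  obtain ⟨ρ₂, hρ₂⟩ : ∃ ρ₂ : Prop, ρ₂ ↔ (∃ i, i ≠ i₀ ∧ C i ≠ 0) := ⟨_, Iff.rfl⟩
  obtain ⟨i₁, hi₁⟩ : ∃ i₁ : K, ρ₂ → i₁ ≠ i₀ ∧ C i₁ ≠ 0 := by
    by_cases h : ρ₂
    · obtain ⟨i, h1, h2⟩ := hρ₂.1 h
      exact ⟨i, fun _ => ⟨h1, h2⟩⟩
    · exact ⟨i₀, fun h' => absurd h' h⟩
  obtain ⟨z₁, hz₁, hz₁'⟩ : ∃ z₁ : S, z₁ ≠ 0 ∧ (ρ₁ → (∃ j, j ≠ j₀ ∧ z₁ = R j) ∨
      ((∀ i, i ≠ i₀ → C i = 0) ∧ z₁ = C i₀)) := by
    by_cases h : ρ₁
    · rcases hρ₁.1 h with ⟨j, h1, h2⟩ | ⟨h1, h2⟩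
      · exact ⟨R j, h2, fun _ => Or.inl ⟨j, h1, rfl⟩⟩
      · exact ⟨C i₀, h2, fun _ => Or.inr ⟨h1, rfl⟩⟩
    · exact ⟨1, one_ne_zero, fun h' => absurd h' h⟩
  obtain ⟨z₂, hz₂, hz₂'⟩ : ∃ z₂ : S, z₂ ≠ 0 ∧ (ρ₂ → z₂ = C i₁) := by
    by_cases h : ρ₂
    · exact ⟨C i₁, (hi₁ h).2, fun _ => rfl⟩
    · exact ⟨1, one_ne_zero, fun h' => absurd h' h⟩
  let pr : Fin t ⊕ Bool → Prop := Sum.elim (fun _ => True) fun x => if x then ρ₂ else ρ₁
  let φ : {u // pr u} → K := fun u => Sum.elim α (fun x => if x then i₁ else i₀) u.1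
  let cc : K → {u // pr u} → S := fun i u =>
    Sum.elim (fun q => a i (c q)) (fun x => if x then a i j₀ else if i = i₀ then 1 else 0) u.1
  have hφ : Function.Injective φ := by
    rintro ⟨u, hu⟩ ⟨v, hv⟩ h
    rw [Subtype.mk.injEq]
    rcases u with s | x <;> rcases v with s' | y
    · exact congrArg Sum.inl (hαi h)
    · exfalso
      cases y
      · exact hα s h
      · have h' : α s = i₁ := h
        apply (hi₁ hv).2
        rw [← h', hCα]
    · exfalso
      cases x
      · exact hα s' h.symm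
      · have h' : i₁ = α s' := h
        apply (hi₁ hu).2
        rw [h', hCα]
    · cases x <;> cases y
      · rfl
      · exfalso
        have h' : i₀ = i₁ := h
        exact (hi₁ hv).1 h'.symm
      · exfalso
        have h' : i₁ = i₀ := h
        exact (hi₁ hu).1 h'
      · rfl
  refine ⟨{u // pr u}, Fintype.ofFinite _, φ, cc, z₁, z₂, hφ, hz₁, hz₂, ?_⟩
  intro M _ _ hr₁ hr₂
  -- the identities
  have id1 : ∀ (x : K → M) (j : L), j ≠ j₀ → ∑ i, a i j • x i =
      ∑ q, algebraMap k S (μ q j) • (∑ i, a i (c q) • x i) + R j • x i₀ := fun x j hj => by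
    have e1 : ∑ q, algebraMap k S (μ q j) • (∑ i, a i (c q) • x i) =
        ∑ i, (∑ q, algebraMap k S (μ q j) * a i (c q)) • x i := by
      simp only [Finset.smul_sum, Finset.sum_smul, smul_smul]
      exact Finset.sum_comm
    have e2 : ∑ i, a i j • x i = ∑ i, ((∑ q, algebraMap k S (μ q j) * a i (c q)) • x i +
        (if i = i₀ then R j • x i else 0)) := by
      refine Finset.sum_congr rfl fun i _ => ?_
      by_cases h : i = i₀
      · rw [if_pos h, h, hR]
        simp only
        rw [← add_smul]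
        congr 1
        abel
      · rw [if_neg h, add_zero, ← hRi i j h hj]
    rw [e2, Finset.sum_add_distrib, e1, Finset.sum_ite_eq' Finset.univ i₀,
      if_pos (Finset.mem_univ _)]
  have id2 : ∀ (x : K → M), ∑ i, a i j₀ • x i =
      ∑ q, σ q • (∑ i, a i (c q) • x i) + ∑ i, C i • x i := fun x => by
    have e1 : ∑ q, σ q • (∑ i, a i (c q) • x i) = ∑ i, (∑ q, σ q * a i (c q)) • x i := by
      simp only [Finset.smul_sum, Finset.sum_smul, smul_smul]
      exact Finset.sum_comm
    rw [e1, ← Finset.sum_add_distrib]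
    refine Finset.sum_congr rfl fun i _ => ?_
    rw [← add_smul, hC]
    congr 1
    simp only
    abel
  constructor
  · intro x hx h0
    have hx0 : x i₀ = 0 := by
      by_cases h : ρ₁
      · rcases hz₁' h with ⟨j, h1, h2⟩ | ⟨h1, h2⟩
        · apply hr₁
          have h3 := id1 x j h1
          simp only [h0, smul_zero, Finset.sum_const_zero, zero_add] at h3
          rw [h2, ← h3]
        · apply hr₁
          have h3 := id2 x
          simp only [h0, smul_zero, Finset.sum_const_zero, zero_add] at h3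
          rw [Finset.sum_eq_single i₀ (fun i _ hi => by rw [h1 i hi, zero_smul])
            (fun hh => absurd (Finset.mem_univ _) hh)] at h3
          rw [h2, ← h3]
      · apply hx
        rintro ⟨⟨u, hu⟩, hφu⟩
        rcases u with s | y
        · exact hα s hφu
        · cases y
          · exact h hu
          · exact (hi₁ hu).1 hφu
    have hx1 : ∀ i, (∀ s, i ≠ α s) → x i = 0 := by
      intro i hi
      by_cases h1 : i = i₀
      · rw [h1, hx0]
      by_cases h2 : ρ₂ ∧ i = i₁
      · rw [h2.2]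
        apply hr₂
        have h3 := id2 x
        simp only [h0, smul_zero, Finset.sum_const_zero, zero_add] at h3
        rw [Finset.sum_eq_single i₁ (fun i' _ hi' => ?_)
            (fun hh => absurd (Finset.mem_univ _) hh)] at h3
        · rw [hz₂' h2.1, ← h3]
        · by_cases h4 : ∃ s, i' = α s
          · obtain ⟨s, rfl⟩ := h4
            rw [hCα, zero_smul]
          by_cases h5 : i' = i₀
          · rw [h5, hx0, smul_zero]
          · rw [hx i', smul_zero]
            rintro ⟨⟨u, hu⟩, hφu⟩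
            rcases u with s | y
            · exact h4 ⟨s, hφu.symm⟩
            · cases y
              · exact h5 hφu.symm
              · exact hi' hφu.symm
      · apply hx
        rintro ⟨⟨u, hu⟩, hφu⟩
        rcases u with s | y
        · exact hi s hφu.symm
        · cases y
          · exact h1 hφu.symm
          · exact h2 ⟨hu, hφu.symm⟩
    have hx2 : ∀ s', x (α s') = 0 := by
      intro s'
      have h1 : ∀ q, ∑ s, algebraMap k S (b (α s) (c q)) • x (α s) = 0 := by
        intro q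
        rw [← h0 (c q)]
        rw [← Finset.sum_image (s := Finset.univ) (g := α)
          (f := fun i => algebraMap k S (b i (c q)) • x i) (fun x _ y _ h => hαi h)]
        refine (Finset.sum_subset (Finset.subset_univ _) ?_).trans ?_
        · intro i _ hi
          rw [hx1 i (fun s hs => hi (Finset.mem_image.2 ⟨s, Finset.mem_univ _, hs.symm⟩)),
            smul_zero]
        · refine Finset.sum_congr rfl fun i _ => ?_
          by_cases h : i = i₀
          · rw [h, hx0, smul_zero, smul_zero]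
          · rw [hb1 i (c q) h (hcj q)]
      calc x (α s') = ∑ s, algebraMap k S (∑ q, b (α s) (c q) * N⁻¹ q s') • x (α s) := by
            simp only [hNN]
            rw [Finset.sum_eq_single s' (fun s _ h => by rw [if_neg h, map_zero, zero_smul])
              (fun hh => absurd (Finset.mem_univ _) hh), if_pos rfl, map_one, one_smul]
        _ = ∑ q, algebraMap k S (N⁻¹ q s') •
              ∑ s, algebraMap k S (b (α s) (c q)) • x (α s) := by
            simp only [map_sum, Finset.sum_smul, Finset.smul_sum, smul_smul, ← map_mul]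
            rw [Finset.sum_comm]
            simp only [mul_comm]
        _ = 0 := by
            simp only [h1, smul_zero, Finset.sum_const_zero]
    funext i
    by_cases h : ∃ s, i = α s
    · obtain ⟨s, rfl⟩ := h
      exact hx2 s
    · exact hx1 i fun s hs => h ⟨s, hs⟩
  · intro x hx
    have h1 : ∀ q, ∑ i, a i (c q) • x i = 0 := fun q => hx ⟨Sum.inl q, trivial⟩
    have h2 : ρ₁ → x i₀ = 0 := fun h => by
      have h3 : ∑ i, (if i = i₀ then (1 : S) else 0) • x i = 0 := hx ⟨Sum.inr false, h⟩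
      simpa using h3
    have h3 : ρ₂ → ∑ i, a i j₀ • x i = 0 := fun h => hx ⟨Sum.inr true, h⟩
    intro j
    by_cases hj : j = j₀
    · rw [hj]
      by_cases h : ρ₂
      · exact h3 h
      · rw [id2]
        simp only [h1, smul_zero, Finset.sum_const_zero, zero_add]
        have h4 : ∀ i, i ≠ i₀ → C i = 0 := fun i hi => by
          by_contra hne
          exact h (hρ₂.2 ⟨i, hi, hne⟩)
        rw [Finset.sum_eq_single i₀ (fun i _ hi => by rw [h4 i hi, zero_smul])
          (fun hh => absurd (Finset.mem_univ _) hh)]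
        by_cases h5 : C i₀ = 0
        · rw [h5, zero_smul]
        · rw [h2 (hρ₁.2 (Or.inr ⟨h4, h5⟩)), smul_zero]
    · rw [id1 x j hj]
      simp only [h1, smul_zero, Finset.sum_const_zero, zero_add]
      by_cases h : ρ₁
      · rw [h2 h, smul_zero]
      · by_cases h4 : R j = 0
        · rw [h4, zero_smul]
        · exact absurd (hρ₁.2 (Or.inl ⟨j, hj, h4⟩)) h

end

end Pool.Agent.X263.At
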