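import Pool.Agent.X263.At.Alg

/-!
Matrices with constant entries off some rows and columns: reduction of the kernel.
-/

set_option autoImplicit false
set_option linter.unusedSectionVars false
set_option linter.unusedSimpArgs false

namespace Pool.Agent.X263.At

open Matrix Sum

section
variable {I M : Type} [Fintype I] [Fintype M] {t : ℕ} {X : Type*} [AddCommGroup X]

/-- the remaining rows -/
def inc {α : Fin t → M} : I ⊕ {m // m ∉ Set.range α} → I ⊕ M := Sum.map id Subtype.val

open Classical in
theorem split {α : Fin t → M} (hα : Function.Injective α) (f : I ⊕ M → X) :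
    ∑ k, f k = ∑ k' : I ⊕ {m // m ∉ Set.range α}, f (inc k') + ∑ s, f (inr (α s)) := by
  rw [Fintype.sum_sum_type, Fintype.sum_sum_type, add_assoc]
  congr 1
  rw [← Finset.sum_filter_add_sum_filter_not Finset.univ (fun m => m ∉ Set.range α)]
  congr 1
  · exact Finset.sum_subtype _ (fun m => by simp) fun m => f (inr m)
  · rw [← Finset.sum_image (s := Finset.univ) (g := α) (f := fun m => f (inr m))
      (fun x _ y _ h => hα h)]
    refine Finset.sum_congr ?_ fun _ _ => rfl
    ext m
    simp

end

section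
variable {k : Type*} [Field k] {I J M N : Type} [Fintype I] [Fintype J] [Fintype M] [Fintype N]
  {S : Type*} [Ring S] [Algebra k S]

open Classical in
/-- the reduction -/
theorem core2 (a : I ⊕ M → J ⊕ N → S) (b : Matrix M N k)
    (hb : ∀ i j, a (inr i) (inr j) = algebraMap k S (b i j)) :
    ∃ (t : ℕ) (α : Fin t → M) (R : I → N → S) (C : I ⊕ {m // m ∉ Set.range α} → J → S),
      Function.Injective α ∧ ∀ (X : Type*) [AddCommGroup X] [Module S X],
        (∀ x : I ⊕ M → X, (∀ l, ∑ i, a i l • x i = 0) →
          (∀ j, ∑ i, R i j • x (inl i) = 0) ∧ ∀ j, ∑ i, C i j • x (inc i) = 0) ∧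
        (∀ x : I ⊕ M → X, (∀ l, ∑ i, a i l • x i = 0) →
          (∀ i : I ⊕ {m // m ∉ Set.range α}, x (inc i) = 0) → x = 0) ∧
        ∀ x' : I ⊕ {m // m ∉ Set.range α} → X, (∀ j, ∑ i, R i j • x' (inl i) = 0) →
          (∀ j, ∑ i, C i j • x' i = 0) →
          ∃ x : I ⊕ M → X, (∀ l, ∑ i, a i l • x i = 0) ∧ ∀ i, x (inc i) = x' i := by
  obtain ⟨t, α, c, hN, hbf⟩ := minor b
  obtain ⟨N₀, hNe⟩ : ∃ N₀, N₀ = b.submatrix α c := ⟨_, rfl⟩
  rw [← hNe] at hN hbf
  have hu : IsUnit N₀.det := isUnit_iff_ne_zero.2 hN
  have hαi : Function.Injective α := fun x y hxy => by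
    by_contra hne
    apply hN
    apply Matrix.det_zero_of_row_eq hne
    ext j
    rw [hNe, submatrix_apply, submatrix_apply, hxy]
  have hNN : ∀ s s', ∑ q, b (α s) (c q) * N₀⁻¹ q s' = if s = s' then 1 else 0 := fun s s' => by
    have h := congrFun (congrFun (Matrix.mul_nonsing_inv N₀ hu) s) s'
    rw [Matrix.mul_apply, Matrix.one_apply] at h
    rw [← h]
    refine Finset.sum_congr rfl fun q _ => ?_
    rw [hNe]
    rfl
  have hNN' : ∀ q q', ∑ s, b (α s) (c q) * N₀⁻¹ q' s = if q' = q then 1 else 0 :=
    fun q q' => by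
    have h := congrFun (congrFun (Matrix.nonsing_inv_mul N₀ hu) q') q
    rw [Matrix.mul_apply, Matrix.one_apply] at h
    rw [← h]
    refine Finset.sum_congr rfl fun s _ => ?_
    rw [hNe, mul_comm]
    rfl
  obtain ⟨μ, hμ⟩ : ∃ μ : Fin t → N → k, μ = fun q j => ∑ s, N₀⁻¹ q s * b (α s) j := ⟨_, rfl⟩
  obtain ⟨R, hR⟩ : ∃ R : I → N → S, R = fun i j =>
    a (inl i) (inr j) - ∑ q, algebraMap k S (μ q j) * a (inl i) (inr (c q)) := ⟨_, rfl⟩
  obtain ⟨σ, hσ⟩ : ∃ σ : Fin t → J → S, σ = fun q j =>
    ∑ s, algebraMap k S (N₀⁻¹ q s) * a (inr (α s)) (inl j) := ⟨_, rfl⟩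
  obtain ⟨C, hC⟩ : ∃ C : I ⊕ M → J → S, C = fun i j =>
    a i (inl j) - ∑ q, σ q j * a i (inr (c q)) := ⟨_, rfl⟩
  have hCα : ∀ s j, C (inr (α s)) j = 0 := fun s j => by
    rw [hC]
    simp only
    rw [sub_eq_zero]
    symm
    calc ∑ q, σ q j * a (inr (α s)) (inr (c q))
        = ∑ q, ∑ s', algebraMap k S (b (α s) (c q) * N₀⁻¹ q s') * a (inr (α s')) (inl j) := by
          refine Finset.sum_congr rfl fun q _ => ?_
          rw [hσ, hb]
          simp only
          rw [Finset.sum_mul]
          refine Finset.sum_congr rfl fun s' _ => ?_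
          rw [← Algebra.commutes, ← mul_assoc, ← map_mul]
      _ = ∑ s', algebraMap k S (∑ q, b (α s) (c q) * N₀⁻¹ q s') * a (inr (α s')) (inl j) := by
          rw [Finset.sum_comm]
          refine Finset.sum_congr rfl fun s' _ => ?_
          rw [map_sum, Finset.sum_mul]
      _ = a (inr (α s)) (inl j) := by
          simp only [hNN]
          rw [Finset.sum_eq_single s]
          · simp
          · intro s' _ h
            rw [if_neg (Ne.symm h), map_zero, zero_mul]
          · intro h
            exact absurd (Finset.mem_univ _) h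
  have hRi : ∀ i j, a (inr i) (inr j) =
      ∑ q, algebraMap k S (μ q j) * a (inr i) (inr (c q)) := fun i j => by
    rw [hb, hbf i j, map_sum]
    refine Finset.sum_congr rfl fun q _ => ?_
    rw [hb, ← map_mul, hμ]
    congr 1
    simp only
    rw [Finset.sum_mul]
    exact Finset.sum_congr rfl fun s _ => by ring
  refine ⟨t, α, R, fun i j => C (inc i) j, hαi, ?_⟩
  intro X _ _
  -- the identities
  have id1 : ∀ (x : I ⊕ M → X) (j : N), ∑ i, a i (inr j) • x i =
      ∑ q, algebraMap k S (μ q j) • (∑ i, a i (inr (c q)) • x i) +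
        ∑ i, R i j • x (inl i) := fun x j => by
    have e1 : ∑ q, algebraMap k S (μ q j) • (∑ i, a i (inr (c q)) • x i) =
        ∑ i, (∑ q, algebraMap k S (μ q j) * a i (inr (c q))) • x i := by
      simp only [Finset.smul_sum, Finset.sum_smul, smul_smul]
      exact Finset.sum_comm
    rw [e1, Fintype.sum_sum_type, Fintype.sum_sum_type, add_right_comm]
    congr 1
    · rw [← Finset.sum_add_distrib]
      refine Finset.sum_congr rfl fun i _ => ?_
      rw [← add_smul, hR]
      congr 1
      simp only
      abel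
    · exact Finset.sum_congr rfl fun i _ => by rw [← hRi]
  have id2 : ∀ (x : I ⊕ M → X) (j : J), ∑ i, a i (inl j) • x i =
      ∑ q, σ q j • (∑ i, a i (inr (c q)) • x i) + ∑ i, C i j • x i := fun x j => by
    have e1 : ∑ q, σ q j • (∑ i, a i (inr (c q)) • x i) =
        ∑ i, (∑ q, σ q j * a i (inr (c q))) • x i := by
      simp only [Finset.smul_sum, Finset.sum_smul, smul_smul]
      exact Finset.sum_comm
    rw [e1, ← Finset.sum_add_distrib]
    refine Finset.sum_congr rfl fun i _ => ?_
    rw [← add_smul, hC]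
    congr 1
    simp only
    abel
  have id3 : ∀ (x : I ⊕ M → X) (j : J), ∑ i, C i j • x i =
      ∑ i : I ⊕ {m // m ∉ Set.range α}, C (inc i) j • x (inc i) := fun x j => by
    rw [split hαi]
    simp only [hCα, zero_smul, Finset.sum_const_zero, add_zero]
  refine ⟨fun x hx => ⟨fun j => ?_, fun j => ?_⟩, fun x hx h0 => ?_, fun x' h1 h2 => ?_⟩
  · have h3 := id1 x j
    simp only [hx, smul_zero, Finset.sum_const_zero, zero_add] at h3
    exact h3.symm
  · have h3 := id2 x j
    simp only [hx, smul_zero, Finset.sum_const_zero, zero_add] at h3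
    rw [← id3, ← h3]
  · have hx2 : ∀ s', x (inr (α s')) = 0 := by
      intro s'
      have h1 : ∀ q, ∑ s, algebraMap k S (b (α s) (c q)) • x (inr (α s)) = 0 := by
        intro q
        have h2 := hx (inr (c q))
        rw [split hαi] at h2
        simp only [h0, smul_zero, Finset.sum_const_zero, zero_add, hb] at h2
        exact h2
      calc x (inr (α s')) =
            ∑ s, algebraMap k S (∑ q, b (α s) (c q) * N₀⁻¹ q s') • x (inr (α s)) := by
            simp only [hNN]
            rw [Finset.sum_eq_single s' (fun s _ h => by rw [if_neg h, map_zero, zero_smul])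
              (fun hh => absurd (Finset.mem_univ _) hh), if_pos rfl, map_one, one_smul]
        _ = ∑ q, algebraMap k S (N₀⁻¹ q s') •
              ∑ s, algebraMap k S (b (α s) (c q)) • x (inr (α s)) := by
            simp only [map_sum, Finset.sum_smul, Finset.smul_sum, smul_smul, ← map_mul]
            rw [Finset.sum_comm]
            simp only [mul_comm]
        _ = 0 := by
            simp only [h1, smul_zero, Finset.sum_const_zero]
    funext i
    rcases i with i | m
    · exact h0 (inl i)
    · by_cases h : m ∈ Set.range α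
      · obtain ⟨s, rfl⟩ := h
        exact hx2 s
      · exact h0 (inr ⟨m, h⟩)
  · obtain ⟨w, hw⟩ : ∃ w : Fin t → X, w = fun q =>
      ∑ i : I ⊕ {m // m ∉ Set.range α}, a (inc i) (inr (c q)) • x' i := ⟨_, rfl⟩
    obtain ⟨x, hx⟩ : ∃ x : I ⊕ M → X, x = Sum.elim (fun i => x' (inl i)) fun m =>
      if h : m ∈ Set.range α then
        -∑ q, algebraMap k S (N₀⁻¹ q h.choose) • w q
      else x' (inr ⟨m, h⟩) := ⟨_, rfl⟩
    have hx1 : ∀ i : I ⊕ {m // m ∉ Set.range α}, x (inc i) = x' i := by
      intro i
      rw [hx]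
      rcases i with i | m
      · rfl
      · exact dif_neg m.2
    have hx2 : ∀ s, x (inr (α s)) = -∑ q, algebraMap k S (N₀⁻¹ q s) • w q := by
      intro s
      have h : α s ∈ Set.range α := ⟨s, rfl⟩
      have e1 : x (inr (α s)) = -∑ q, algebraMap k S (N₀⁻¹ q h.choose) • w q := by
        rw [hx]
        exact dif_pos h
      rw [e1, hαi h.choose_spec]
    have hc : ∀ q, ∑ i, a i (inr (c q)) • x i = 0 := by
      intro q
      rw [split hαi]
      simp only [hx1, hx2, hb, smul_neg, Finset.smul_sum, smul_smul, ← map_mul]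
      rw [Finset.sum_neg_distrib, Finset.sum_comm]
      simp only [← Finset.sum_smul, ← map_sum, hNN']
      rw [Finset.sum_eq_single q (fun q' _ h => by rw [if_neg h, map_zero, zero_smul])
        (fun hh => absurd (Finset.mem_univ _) hh), if_pos rfl, map_one, one_smul, hw,
        add_neg_cancel]
    refine ⟨x, fun l => ?_, hx1⟩
    rcases l with j | j
    · rw [id2]
      simp only [hc, smul_zero, Finset.sum_const_zero, zero_add]
      rw [id3]
      simp only [hx1]
      exact h2 j
    · rw [id1]
      simp only [hc, smul_zero, Finset.sum_const_zero, zero_add]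
      have h3 := h1 j
      rw [← h3]
      exact Finset.sum_congr rfl fun i _ => by rw [← hx1 (inl i)]; rfl

end

end Pool.Agent.X263.At
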