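import Pool.Agent.X263.At.Alg
import Pool.Agent.X190.PN.Elem2

/-!
Kernel dimensions of matrices with monomial entries off one row and one column.
-/

set_option autoImplicit false
set_option linter.unusedSectionVars false
set_option linter.unusedSimpArgs false

open scoped InnerProductSpace InnerProduct ENNReal Topology

namespace Pool.Agent.X263.At

open Pool.Agent.W649.ZL Pool.Agent.X190.TW

universe u

section
variable {G : Type u} [Group G] (Kf : Subfield ℂ)

/-- left translations -/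
noncomputable def Lh : G →* (EE G Unit →L[ℂ] EE G Unit) where
  toFun t := Ltr t
  map_one' := Ltr_one
  map_mul' s t := Ltr_mul s t

/-- the action of the group ring -/
noncomputable def Ph : MonoidAlgebra Kf G →+* (EE G Unit →L[ℂ] EE G Unit) :=
  MonoidAlgebra.liftNCRingHom ((algebraMap ℂ (EE G Unit →L[ℂ] EE G Unit)).comp Kf.subtype) Lh
    fun _ _ => Algebra.commutes _ _

theorem Ph_single (t : G) (r : Kf) (f : EE G Unit) :
    Ph Kf (MonoidAlgebra.single t r) f = (r : ℂ) • Ltr t f := by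
  have h : Ph Kf (MonoidAlgebra.single t r) =
      (algebraMap ℂ (EE G Unit →L[ℂ] EE G Unit) (r : ℂ)) * Ltr t :=
    MonoidAlgebra.liftNC_single _ _ _ _
  rw [h, Algebra.algebraMap_eq_smul_one, smul_mul_assoc, one_mul]
  rfl

theorem Ph_eqv (s : MonoidAlgebra Kf G) : Eqv (Ph Kf s) := by
  intro k f
  induction s using MonoidAlgebra.induction_linear with
  | zero => rw [map_zero]; change (0 : EE G Unit) = tr k 0; rw [tr_zero]
  | add a b ha hb =>
    rw [map_add]
    change Ph Kf a (tr k f) + Ph Kf b (tr k f) = tr k (Ph Kf a f + Ph Kf b f)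
    rw [ha, hb, tr_add]
  | single t r =>
    rw [Ph_single, Ph_single, elem_eqv, tr_smul]

/-- the action of the group ring as a module -/
@[reducible] noncomputable def md : Module (MonoidAlgebra Kf G) (EE G Unit) :=
  Module.compHom _ (Ph Kf)

end

section
variable {G : Type u} {K L : Type} [Group G] [Fintype K] [Fintype L]
  [DecidableEq K] [DecidableEq L]

theorem Eqv.comp' {I J Q : Type} {T : EE G J →L[ℂ] EE G Q} {S : EE G I →L[ℂ] EE G J}
    (hT : Eqv T) (hS : Eqv S) : Eqv (T.comp S) := fun k f => by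
  rw [ContinuousLinearMap.comp_apply, ContinuousLinearMap.comp_apply, hS, hT]

theorem Eqv.sum' {I J ι : Type} [Fintype J] (s : Finset ι) {T : ι → EE G I →L[ℂ] EE G J}
    (hT : ∀ i, Eqv (T i)) : Eqv (∑ i ∈ s, T i) := fun k f => by
  rw [sum_apply, sum_apply, tr_sum]
  exact Finset.sum_congr rfl fun i _ => hT i k f

theorem ge_of_ker {T : Type} [Fintype T] (S : EE G K →L[ℂ] EE G L)
    (S' : EE G K →L[ℂ] EE G T) (hS' : Eqv S') (h : ∀ F, S' F = 0 → S F = 0) :
    (Fintype.card K : ℝ) - Fintype.card T ≤ vd (LinearMap.ker (S : EE G K →ₗ[ℂ] EE G L)) := by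
  classical
  have h1 := rank_nullity S' hS' (U := ⊤) (fun _ _ _ => trivial) isClosed_univ
  rw [vd_top, top_inf_eq] at h1
  have h2 := vd_le_card (Submodule.map (S' : EE G K →ₗ[ℂ] EE G T) ⊤)
  have h3 : vd (LinearMap.ker (S' : EE G K →ₗ[ℂ] EE G T)) ≤
      vd (LinearMap.ker (S : EE G K →ₗ[ℂ] EE G L)) := vd_mono fun F hF => h F hF
  linarith

end

section
variable {G : Type u} {K L : Type} [Group G] [Fintype K] [Fintype L]
  [DecidableEq K] [DecidableEq L] (Kf : Subfield ℂ)

/-- complex coefficients -/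
noncomputable def toC (z : MonoidAlgebra Kf G) : G →₀ ℂ :=
  z.coeff.mapRange (fun r : Kf => (r : ℂ)) rfl

theorem toC_apply (z : MonoidAlgebra Kf G) (t : G) : toC Kf z t = (z.coeff t : ℂ) := rfl

theorem toC_ne (z : MonoidAlgebra Kf G) (hz : z ≠ 0) : toC Kf z ≠ 0 := by
  intro h
  apply hz
  ext t
  have h1 := DFunLike.congr_fun h t
  rw [toC_apply] at h1
  exact h1

theorem toC_add (a b : MonoidAlgebra Kf G) : toC Kf (a + b) = toC Kf a + toC Kf b := by
  ext t
  rw [Finsupp.add_apply, toC_apply, toC_apply, toC_apply, MonoidAlgebra.coeff_add,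
    Finsupp.add_apply]
  rfl

theorem cop_toC (z : MonoidAlgebra Kf G) : cop (toC Kf z) = Ph Kf z := by
  induction z using MonoidAlgebra.induction_linear with
  | zero =>
    rw [map_zero]
    have h : toC Kf (0 : MonoidAlgebra Kf G) = 0 := by
      ext t
      rw [toC_apply]
      rfl
    rw [h, map_zero]
  | add a b ha hb => rw [toC_add, map_add, map_add, ha, hb]
  | single t r =>
    have h : toC Kf (MonoidAlgebra.single t r) = Finsupp.single t (r : ℂ) := by
      unfold toC
      rw [MonoidAlgebra.coeff_single, Finsupp.mapRange_single]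
    rw [h, cop_single]
    ext1 f
    rw [Ph_single]
    rfl

/-- the coefficients after scaling -/
noncomputable def scB (A : K → L → (G →₀ ℂ)) (hA : ∀ i j t, A i j t ∈ Kf) (g : K → G)
    (h : L → G) (i : K) (j : L) : MonoidAlgebra Kf G :=
  ∑ t ∈ (A i j).support, MonoidAlgebra.single (h j * t⁻¹ * g i) ⟨A i j t, hA i j t⟩

/-- scaled coordinates -/
noncomputable def sx (g : K → G) (F : EE G K) (i : K) : EE G Unit :=
  Ltr (g i)⁻¹ (elem (1 : G) () i F)

theorem sx_apply (g : K → G) (F : EE G K) (i : K) (u : G) :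
    sx g F i (u, ()) = F (g i * u, i) := by
  unfold sx
  rw [Ltr_apply, elem_apply, if_pos rfl, inv_inv, inv_one, one_mul]

theorem scB_apply (A : K → L → (G →₀ ℂ)) (hA : ∀ i j t, A i j t ∈ Kf) (g : K → G)
    (h : L → G) (F : EE G K) (j : L) (u : G) :
    (∑ i, Ph Kf (scB Kf A hA g h i j) (sx g F i)) (u, ()) =
      ∑ i, ∑ t ∈ (A i j).support, A i j t * F (t * ((h j)⁻¹ * u), i) := by
  rw [sum_apply_EE]
  refine Finset.sum_congr rfl fun i _ => ?_
  unfold scB
  rw [map_sum, sum_apply, sum_apply_EE]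
  refine Finset.sum_congr rfl fun t _ => ?_
  rw [Ph_single]
  change A i j t * Ltr _ (sx g F i) (u, ()) = _
  have e : g i * ((h j * t⁻¹ * g i)⁻¹ * u) = t * ((h j)⁻¹ * u) := by group
  rw [Ltr_apply, sx_apply, e]

theorem scB_const (A : K → L → (G →₀ ℂ)) (hA : ∀ i j t, A i j t ∈ Kf) (g : K → G)
    (h : L → G) (i : K) (j : L) (r : ℂ) (hr : A i j = Finsupp.single (g i * h j) r) :
    ∃ c : Kf, scB Kf A hA g h i j = algebraMap Kf (MonoidAlgebra Kf G) c := by
  have hrK : r ∈ Kf := by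
    have := hA i j (g i * h j)
    rwa [hr, Finsupp.single_eq_same] at this
  refine ⟨⟨r, hrK⟩, ?_⟩
  unfold scB
  have h1 : (A i j).support ⊆ {g i * h j} := by
    rw [hr]
    exact Finsupp.support_single_subset
  rw [Finset.sum_subset h1, Finset.sum_singleton]
  · have e1 : h j * (g i * h j)⁻¹ * g i = 1 := by group
    have e2 : (⟨A i j (g i * h j), hA i j (g i * h j)⟩ : Kf) = ⟨r, hrK⟩ := by
      apply Subtype.ext
      change A i j (g i * h j) = r
      rw [hr, Finsupp.single_eq_same]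
    rw [e1, e2]
    rfl
  · intro t _ ht
    have : (⟨A i j t, hA i j t⟩ : Kf) = 0 := Subtype.ext (Finsupp.notMem_support_iff.1 ht)
    rw [this, MonoidAlgebra.single_zero]

theorem main (A : K → L → (G →₀ ℂ)) (hA : ∀ i j t, A i j t ∈ Kf) (i₀ : K) (j₀ : L) (g : K → G)
    (h : L → G) (hc : ∀ i j, i ≠ i₀ → j ≠ j₀ → ∃ r : ℂ, A i j = Finsupp.single (g i * h j) r) :
    ∃ α β : G →₀ ℂ, α ≠ 0 ∧ β ≠ 0 ∧ (∀ t, α t ∈ Kf) ∧ (∀ t, β t ∈ Kf) ∧
      (Function.Injective (cop α) → Function.Injective (cop β) → ∃ n : ℕ, kerDimM A = n) := by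
  classical
  let _ := md (G := G) Kf
  have hsm : ∀ (z : MonoidAlgebra Kf G) (x : EE G Unit), z • x = Ph Kf z x := fun _ _ => rfl
  obtain ⟨T, _, φ, c, z₁, z₂, hφ, hz₁, hz₂, hcore⟩ := core (k := Kf) (scB Kf A hA g h) i₀ j₀
    (fun i j hi hj => by
      obtain ⟨r, hr⟩ := hc i j hi hj
      exact scB_const Kf A hA g h i j r hr)
  refine ⟨toC Kf z₁, toC Kf z₂, toC_ne _ _ hz₁, toC_ne _ _ hz₂, fun t => (z₁.coeff t).2,
    fun t => (z₂.coeff t).2, ?_⟩
  intro h₁ h₂
  rw [cop_toC] at h₁ h₂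
  obtain ⟨H1, H2⟩ := hcore (EE G Unit)
    (fun x hx => h₁ (by rw [map_zero]; exact hx)) (fun x hx => h₂ (by rw [map_zero]; exact hx))
  obtain ⟨S, hS, hSk, hSa⟩ := exists_op A
  have key : ∀ F : EE G K, S F = 0 ↔ ∀ j, ∑ i, scB Kf A hA g h i j • sx g F i = 0 := by
    intro F
    constructor
    · intro hF j
      ext ⟨u, ⟨⟩⟩
      change (∑ i, Ph Kf (scB Kf A hA g h i j) (sx g F i)) (u, ()) = 0
      rw [scB_apply, ← hSa, hF]
      rfl
    · intro hF
      ext ⟨u, j⟩
      rw [hSa]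
      have h1 := scB_apply Kf A hA g h F j (h j * u)
      have h2 : (∑ i, Ph Kf (scB Kf A hA g h i j) (sx g F i)) = 0 := hF j
      rw [h2] at h1
      simp only [inv_mul_cancel_left] at h1
      exact h1.symm
  -- the upper bound
  have up : vd (LinearMap.ker (S : EE G K →ₗ[ℂ] EE G L)) ≤
      (Fintype.card K : ℝ) - Fintype.card T := by
    have h1 := vd_ker_le S hS (Finset.univ.image φ) (fun F hF hsupp => by
      have h2 := H1 (sx g F) (fun i hi => by
        ext ⟨u, ⟨⟩⟩
        rw [sx_apply]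
        apply hsupp
        intro hm
        obtain ⟨v, _, hv⟩ := Finset.mem_image.1 hm
        exact hi ⟨v, hv⟩) ((key F).1 hF)
      ext ⟨u, i⟩
      have h3 := congrArg (fun f : EE G Unit => f ((g i)⁻¹ * u, ())) (congrFun h2 i)
      simp only at h3
      rw [sx_apply, mul_inv_cancel_left] at h3
      exact h3)
    rwa [Finset.card_image_of_injective _ hφ, Finset.card_univ] at h1
  -- the lower bound
  let S' : EE G K →L[ℂ] EE G T := ∑ τ : T, ∑ i : K, (elem (1 : G) τ ()).comp
    ((Ph Kf (c i τ)).comp ((Ltr (g i)⁻¹).comp (elem (1 : G) () i)))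
  have hS' : Eqv S' := Eqv.sum' _ fun τ => Eqv.sum' _ fun i =>
    Eqv.comp' (elem_eqv _ _ _) (Eqv.comp' (Ph_eqv _ _) (Eqv.comp' (elem_eqv _ _ _)
      (elem_eqv _ _ _)))
  have hS'a : ∀ (F : EE G K) (u : G) (τ : T), S' F (u, τ) =
      (∑ i, Ph Kf (c i τ) (sx g F i)) (u, ()) := by
    intro F u τ
    have e1 : S' F (u, τ) = ∑ τ' : T, ∑ i : K, (if τ = τ' then
        (Ph Kf (c i τ') (sx g F i)) (u, ()) else 0) := by
      change (∑ τ : T, ∑ i : K, (elem (1 : G) τ ()).comp
        ((Ph Kf (c i τ)).comp ((Ltr (g i)⁻¹).comp (elem (1 : G) () i)))) F (u, τ) = _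
      rw [sum_apply, sum_apply_EE]
      refine Finset.sum_congr rfl fun τ' _ => ?_
      rw [sum_apply, sum_apply_EE]
      refine Finset.sum_congr rfl fun i _ => ?_
      rw [ContinuousLinearMap.comp_apply, elem_apply, inv_one, one_mul]
      rfl
    rw [e1, Finset.sum_eq_single τ]
    · rw [sum_apply_EE]
      exact Finset.sum_congr rfl fun i _ => if_pos rfl
    · intro τ' _ hne
      exact Finset.sum_eq_zero fun i _ => if_neg (Ne.symm hne)
    · intro hh
      exact absurd (Finset.mem_univ _) hh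
  have lo := ge_of_ker S S' hS' (fun F hF => (key F).2 (H2 (sx g F) (fun τ => by
    ext ⟨u, ⟨⟩⟩
    change (∑ i, Ph Kf (c i τ) (sx g F i)) (u, ()) = 0
    rw [← hS'a, hF]
    rfl)))
  refine ⟨Fintype.card K - Fintype.card T, ?_⟩
  rw [hSk, Nat.cast_sub (Fintype.card_le_of_injective φ hφ)]
  exact le_antisymm up lo

end

end Pool.Agent.X263.At
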