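import Pool.Agent.X263.At.Gen
import Pool.Agent.X263.At.Op

/-!
Kernel dimensions of matrices with monomial entries off some rows and columns.
-/

set_option autoImplicit false
set_option linter.unusedSectionVars false
set_option linter.unusedSimpArgs false

open scoped InnerProductSpace InnerProduct ENNReal Topology

namespace Pool.Agent.X263.At

open Pool.Agent.W649.ZL Pool.Agent.X190.TW Pool.Agent.X190.PN Sum

universe u

section
variable {G : Type u} [Group G] {K L : Type} [Fintype K] [Fintype L] [DecidableEq K]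
  [DecidableEq L]

/-- coordinates -/
noncomputable def sl (k : K) : EE G K →L[ℂ] EE G Unit := elem (1 : G) () k

/-- inclusions of the coordinates -/
noncomputable def il (k : K) : EE G Unit →L[ℂ] EE G K := elem (1 : G) k ()

theorem sl_apply (k : K) (F : EE G K) (u : G) : sl k F (u, ()) = F (u, k) := by
  unfold sl
  rw [elem_apply, if_pos rfl, inv_one, one_mul]

theorem il_apply (k : K) (f : EE G Unit) (u : G) (l : K) :
    il k f (u, l) = if l = k then f (u, ()) else 0 := by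
  unfold il
  rw [elem_apply, inv_one, one_mul]

theorem sl_il (k l : K) (f : EE G Unit) : sl k (il l f) = if k = l then f else 0 := by
  ext ⟨u, ⟨⟩⟩
  rw [sl_apply, il_apply]
  split_ifs <;> rfl

theorem ext_sl {F H : EE G K} (h : ∀ k, sl k F = sl k H) : F = H := by
  ext ⟨u, k⟩
  rw [← sl_apply k F, ← sl_apply k H, h]

theorem sl_sum (k : K) (y : K → EE G Unit) : sl k (∑ l, il l (y l)) = y k := by
  rw [map_sum, Finset.sum_eq_single k]
  · rw [sl_il, if_pos rfl]
  · intro l _ h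
    rw [sl_il, if_neg (Ne.symm h)]
  · intro h
    exact absurd (Finset.mem_univ _) h

theorem inner_sl (F H : EE G K) : ⟪F, H⟫_ℂ = ∑ k, ⟪sl k F, sl k H⟫_ℂ := by
  rw [lp.inner_eq_tsum, tsum_prod_fin _ (lp.summable_inner _ _)]
  refine Finset.sum_congr rfl fun k _ => ?_
  rw [lp.inner_eq_tsum, tsum_prod_fin _ (lp.summable_inner _ _), Fintype.sum_unique]
  refine tsum_congr fun u => ?_
  change _ = ⟪sl k F (u, ()), sl k H (u, ())⟫_ℂ
  rw [sl_apply, sl_apply]

end

section
variable {G : Type u} [Group G] {K L N : Type} [Fintype K] [Fintype L] [Fintype N]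
  [DecidableEq K] [DecidableEq L] [DecidableEq N] (Kf : Subfield ℂ)

/-- the operator of a matrix -/
noncomputable def op (B : K → L → MonoidAlgebra Kf G) : EE G K →L[ℂ] EE G L :=
  ∑ l : L, ∑ k : K, (il l).comp ((Ph Kf (B k l)).comp (sl k))

theorem op_eqv (B : K → L → MonoidAlgebra Kf G) : Eqv (op Kf B) :=
  Eqv.sum' _ fun _ => Eqv.sum' _ fun _ =>
    Eqv.comp' (elem_eqv _ _ _) (Eqv.comp' (Ph_eqv _ _) (elem_eqv _ _ _))

theorem sl_op (B : K → L → MonoidAlgebra Kf G) (F : EE G K) (l : L) :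
    sl l (op Kf B F) = ∑ k, Ph Kf (B k l) (sl k F) := by
  have h : op Kf B F = ∑ l : L, il l (∑ k, Ph Kf (B k l) (sl k F)) := by
    unfold op
    rw [sum_apply]
    refine Finset.sum_congr rfl fun l _ => ?_
    rw [sum_apply, map_sum]
    rfl
  rw [h, sl_sum]

theorem op_comp (B : K → L → MonoidAlgebra Kf G) (B' : L → N → MonoidAlgebra Kf G)
    (F : EE G K) : op Kf B' (op Kf B F) = op Kf (fun k n => ∑ l, B' l n * B k l) F := by
  apply ext_sl
  intro n
  rw [sl_op, sl_op]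
  have h1 : ∀ l, Ph Kf (B' l n) (sl l (op Kf B F)) =
      ∑ k, Ph Kf (B' l n * B k l) (sl k F) := by
    intro l
    rw [sl_op, map_sum]
    refine Finset.sum_congr rfl fun k _ => ?_
    rw [map_mul]
    rfl
  have h2 : ∀ k, Ph Kf (∑ l, B' l n * B k l) (sl k F) = ∑ l, Ph Kf (B' l n * B k l) (sl k F) := by
    intro k
    rw [map_sum, sum_apply]
  simp only [h1, h2]
  exact Finset.sum_comm

theorem exists_star (hK : ∀ z ∈ Kf, (starRingEnd ℂ) z ∈ Kf) (z : MonoidAlgebra Kf G) :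
    ∃ w : MonoidAlgebra Kf G, ContinuousLinearMap.adjoint (Ph Kf z) = Ph Kf w := by
  induction z using MonoidAlgebra.induction_linear with
  | zero => exact ⟨0, by rw [map_zero, map_zero]⟩
  | add a b ha hb =>
    obtain ⟨a', ha⟩ := ha
    obtain ⟨b', hb⟩ := hb
    exact ⟨a' + b', by rw [map_add, map_add, map_add, ha, hb]⟩
  | single t r =>
    refine ⟨MonoidAlgebra.single t⁻¹ ⟨(starRingEnd ℂ) (r : ℂ), hK _ r.2⟩, ?_⟩
    symm
    rw [ContinuousLinearMap.eq_adjoint_iff]
    intro x y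
    rw [Ph_single, Ph_single, inner_smul_left, inner_smul_right, inner_Ltr]
    simp

/-- the adjoint -/
noncomputable def st (hK : ∀ z ∈ Kf, (starRingEnd ℂ) z ∈ Kf) (z : MonoidAlgebra Kf G) :
    MonoidAlgebra Kf G := (exists_star Kf hK z).choose

theorem st_spec (hK : ∀ z ∈ Kf, (starRingEnd ℂ) z ∈ Kf) (z : MonoidAlgebra Kf G) :
    ContinuousLinearMap.adjoint (Ph Kf z) = Ph Kf (st Kf hK z) := (exists_star Kf hK z).choose_spec

theorem adj_op (hK : ∀ z ∈ Kf, (starRingEnd ℂ) z ∈ Kf) (B : K → L → MonoidAlgebra Kf G) :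
    ContinuousLinearMap.adjoint (op Kf B) = op Kf (fun l k => st Kf hK (B k l)) := by
  symm
  rw [ContinuousLinearMap.eq_adjoint_iff]
  intro x y
  rw [inner_sl, inner_sl]
  simp only [sl_op, ← st_spec, sum_inner, inner_sum, ContinuousLinearMap.adjoint_inner_left]
  exact Finset.sum_comm

theorem eq_zero_of_adj {I J : Type} (T : EE G I →L[ℂ] EE G J) (x : EE G I)
    (h : ContinuousLinearMap.adjoint T (T x) = 0) : T x = 0 := by
  rw [← inner_self_eq_zero (𝕜 := ℂ), ← ContinuousLinearMap.adjoint_inner_right, h,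
    inner_zero_right]

end


section
variable {G : Type u} [Group G] {K L : Type} [Fintype K] [Fintype L] [DecidableEq K]
  [DecidableEq L] (Kf : Subfield ℂ)

/-- the entry for the right multiplication -/
noncomputable def bk (z : MonoidAlgebra Kf G) : G →₀ ℂ := iv (toC Kf z)

theorem bk_mem (z : MonoidAlgebra Kf G) (t : G) : bk Kf z t ∈ Kf := by
  unfold bk
  rw [iv_apply, toC_apply]
  exact (z.coeff _).2

theorem bk_zero : bk Kf (0 : MonoidAlgebra Kf G) = 0 := by
  ext t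
  unfold bk
  rw [iv_apply, toC_apply]
  rfl

theorem kerDimM_bk (B : K → L → MonoidAlgebra Kf G) :
    kerDimM (fun k l => bk Kf (B k l)) =
      vd (LinearMap.ker (op Kf B : EE G K →ₗ[ℂ] EE G L)) := by
  classical
  obtain ⟨S, hS, hSk, hSa⟩ := exists_op (fun k l => bk Kf (B k l))
  have h1 : S = op Kf B := by
    ext F ⟨u, l⟩
    rw [hSa, ← sl_apply l, sl_op, sum_apply_EE]
    refine Finset.sum_congr rfl fun k _ => ?_
    rw [← cop_toC, cop_apply]
    have h2 : (bk Kf (B k l)).support = (toC Kf (B k l)).support.image (fun g => g⁻¹) := by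
      ext x
      rw [Finsupp.mem_support_iff, Finset.mem_image]
      unfold bk
      rw [iv_apply]
      constructor
      · intro h
        exact ⟨x⁻¹, Finsupp.mem_support_iff.2 h, inv_inv x⟩
      · rintro ⟨t, ht, rfl⟩
        rw [inv_inv]
        exact Finsupp.mem_support_iff.1 ht
    rw [h2, Finset.sum_image (fun x _ y _ hxy => inv_injective hxy)]
    refine Finset.sum_congr rfl fun t _ => ?_
    rw [sl_apply]
    unfold bk
    rw [iv_apply, inv_inv]
  rw [hSk, h1]

theorem ker_iff (A : K → L → (G →₀ ℂ)) (hA : ∀ i j t, A i j t ∈ Kf) (g : K → G) (h : L → G)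
    (S : EE G K →L[ℂ] EE G L) (hSa : ∀ (F : EE G K) (u : G) (j : L), S F (u, j)
      = ∑ k : K, ∑ t ∈ (A k j).support, A k j t * F (t * u, k)) (F : EE G K) :
    S F = 0 ↔ ∀ j, ∑ i, Ph Kf (scB Kf A hA g h i j) (sx g F i) = 0 := by
  constructor
  · intro hF j
    ext ⟨u, ⟨⟩⟩
    rw [scB_apply, ← hSa, hF]
    rfl
  · intro hF
    ext ⟨u, j⟩
    rw [hSa]
    have h1 := scB_apply Kf A hA g h F j (h j * u)
    rw [hF j] at h1
    simp only [inv_mul_cancel_left] at h1
    exact h1.symm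

end

section
variable {k : Type*} [Field k] {I J M N : Type} [Fintype I] [Fintype J] [Fintype M] [Fintype N]
  {S : Type*} [Ring S] [Algebra k S]

theorem core3 (a : I ⊕ M → J ⊕ N → S) (b : Matrix M N k)
    (hb : ∀ i j, a (inr i) (inr j) = algebraMap k S (b i j)) :
    ∃ (M' : Type) (_ : Fintype M') (ic : I ⊕ M' → I ⊕ M) (R : I → N → S)
      (C : I ⊕ M' → J → S), ∀ (X : Type*) [AddCommGroup X] [Module S X],
        (∀ x : I ⊕ M → X, (∀ l, ∑ i, a i l • x i = 0) →
          (∀ j, ∑ i, R i j • x (ic (inl i)) = 0) ∧ ∀ j, ∑ i, C i j • x (ic i) = 0) ∧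
        (∀ x : I ⊕ M → X, (∀ l, ∑ i, a i l • x i = 0) →
          (∀ i : I ⊕ M', x (ic i) = 0) → x = 0) ∧
        ∀ x' : I ⊕ M' → X, (∀ j, ∑ i, R i j • x' (inl i) = 0) →
          (∀ j, ∑ i, C i j • x' i = 0) →
          ∃ x : I ⊕ M → X, (∀ l, ∑ i, a i l • x i = 0) ∧ ∀ i, x (ic i) = x' i := by
  classical
  obtain ⟨t, α, R, C, _, h⟩ := core2 a b hb
  exact ⟨{m // m ∉ Set.range α}, _, inc, R, C, h⟩

end


section
variable {G : Type u} [Group G] {I J M N : Type} [Fintype I] [Fintype J] [Fintype M] [Fintype N]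
  [DecidableEq I] [DecidableEq J] [DecidableEq M] [DecidableEq N] (Kf : Subfield ℂ)

/-- the kernel of the reduced operator -/
theorem ker_red (hK : ∀ z ∈ Kf, (starRingEnd ℂ) z ∈ Kf) (R : I → N → MonoidAlgebra Kf G)
    (C : I ⊕ M → J → MonoidAlgebra Kf G) :
    ∃ B₁ : I ⊕ M → I ⊕ J → MonoidAlgebra Kf G,
      (∀ i, B₁ (inr i) = fun l => Sum.elim (fun _ => 0) (C (inr i)) l) ∧
      ∀ x : EE G (I ⊕ M), op Kf B₁ x = 0 ↔
        (∀ n, ∑ i, Ph Kf (R i n) (sl (inl i) x) = 0) ∧ ∀ j, ∑ i, Ph Kf (C i j) (sl i x) = 0 := by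
  refine ⟨fun k l => Sum.elim (fun i => Sum.elim
    (fun i' => ∑ n, st Kf hK (R i n) * R i' n) (fun _ => 0) k) (fun j => C k j) l, ?_, ?_⟩
  · intro i
    funext l
    rcases l with i' | j <;> rfl
  intro x
  obtain ⟨v, hv⟩ : ∃ v : EE G I, v = ∑ i, il i (sl (inl i) x) := ⟨_, rfl⟩
  have hvi : ∀ i, sl i v = sl (inl i) x := fun i => by rw [hv, sl_sum]
  have e1 : ∀ i, sl i (ContinuousLinearMap.adjoint (op Kf R) (op Kf R v)) =
      sl (inl i) (op Kf (fun (k : I ⊕ M) (l : I ⊕ J) => Sum.elim (fun i => Sum.elim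
        (fun i' => ∑ n, st Kf hK (R i n) * R i' n) (fun _ => 0) k) (fun j => C k j) l) x) := by
    intro i
    rw [adj_op Kf hK, op_comp, sl_op, sl_op, Fintype.sum_sum_type]
    simp only [Sum.elim_inl, Sum.elim_inr, map_zero, hvi]
    have : ∑ m : M, (0 : EE G Unit →L[ℂ] EE G Unit) (sl (inr m) x) = 0 :=
      Finset.sum_eq_zero fun _ _ => rfl
    rw [this, add_zero]
  constructor
  · intro hx
    constructor
    · have h1 : op Kf R v = 0 := by
        apply eq_zero_of_adj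
        apply ext_sl
        intro i
        rw [e1, hx, map_zero, map_zero]
      intro n
      have h2 := sl_op Kf R v n
      rw [h1, map_zero] at h2
      rw [h2]
      exact Finset.sum_congr rfl fun i _ => by rw [hvi]
    · intro j
      have h2 := sl_op Kf (fun (k : I ⊕ M) (l : I ⊕ J) => Sum.elim (fun i => Sum.elim
        (fun i' => ∑ n, st Kf hK (R i n) * R i' n) (fun _ => 0) k) (fun j => C k j) l) x (inr j)
      rw [hx, map_zero] at h2
      exact h2.symm
  · rintro ⟨h1, h2⟩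
    apply ext_sl
    intro l
    rw [map_zero]
    rcases l with i | j
    · rw [← e1]
      have h3 : op Kf R v = 0 := by
        apply ext_sl
        intro n
        rw [sl_op, map_zero, ← h1 n]
        exact Finset.sum_congr rfl fun i _ => by rw [hvi]
      rw [h3, map_zero, map_zero]
    · rw [sl_op]
      exact h2 j

/-- the kernel of the adjoint -/
theorem ker_red' (hK : ∀ z ∈ Kf, (starRingEnd ℂ) z ∈ Kf)
    (C : M → J → MonoidAlgebra Kf G) (B₁ : I ⊕ M → I ⊕ J → MonoidAlgebra Kf G)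
    (hB : ∀ i, B₁ (inr i) = fun l => Sum.elim (fun _ => 0) (C i) l) :
    ∃ B₂ : I ⊕ J → I ⊕ J → MonoidAlgebra Kf G, (∀ i j, B₂ (inl i) (inr j) = 0) ∧
      ∀ w : EE G (I ⊕ J), ContinuousLinearMap.adjoint (op Kf B₁) w = 0 ↔ op Kf B₂ w = 0 := by
  refine ⟨fun k l => Sum.elim (fun i => st Kf hK (B₁ (inl i) k)) (fun j => Sum.elim
    (fun _ => 0) (fun j' => ∑ m, C m j * st Kf hK (C m j')) k) l, fun i j => rfl, ?_⟩
  intro w
  obtain ⟨z, hz⟩ : ∃ z : EE G J, z = ∑ j, il j (sl (inr j) w) := ⟨_, rfl⟩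
  have hzj : ∀ j, sl j z = sl (inr j) w := fun j => by rw [hz, sl_sum]
  have e1 : ∀ m, sl (inr m) (ContinuousLinearMap.adjoint (op Kf B₁) w) =
      sl m (ContinuousLinearMap.adjoint (op Kf C) z) := by
    intro m
    rw [adj_op Kf hK, adj_op Kf hK, sl_op, sl_op, Fintype.sum_sum_type]
    simp only [hB, Sum.elim_inl, Sum.elim_inr, ← st_spec, map_zero, hzj]
    have : ∑ i : I, (0 : EE G Unit →L[ℂ] EE G Unit) (sl (inl i) w) = 0 :=
      Finset.sum_eq_zero fun _ _ => rfl
    rw [this, zero_add]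
  have e2 : ∀ j, sl (inr j) (op Kf (fun (k l : I ⊕ J) => Sum.elim
      (fun i => st Kf hK (B₁ (inl i) k)) (fun j => Sum.elim
        (fun _ => 0) (fun j' => ∑ m, C m j * st Kf hK (C m j')) k) l) w) =
      sl j (op Kf C (ContinuousLinearMap.adjoint (op Kf C) z)) := by
    intro j
    rw [adj_op Kf hK, op_comp, sl_op, sl_op, Fintype.sum_sum_type]
    simp only [Sum.elim_inl, Sum.elim_inr, map_zero, hzj]
    have : ∑ i : I, (0 : EE G Unit →L[ℂ] EE G Unit) (sl (inl i) w) = 0 :=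
      Finset.sum_eq_zero fun _ _ => rfl
    rw [this, zero_add]
  have e3 : ∀ i, sl (inl i) (ContinuousLinearMap.adjoint (op Kf B₁) w) =
      sl (inl i) (op Kf (fun (k l : I ⊕ J) => Sum.elim
      (fun i => st Kf hK (B₁ (inl i) k)) (fun j => Sum.elim
        (fun _ => 0) (fun j' => ∑ m, C m j * st Kf hK (C m j')) k) l) w) := by
    intro i
    rw [adj_op Kf hK, sl_op, sl_op]
    rfl
  constructor
  · intro h
    apply ext_sl
    intro l
    rw [map_zero]
    rcases l with i | j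
    · rw [← e3, h, map_zero]
    · rw [e2]
      have h3 : ContinuousLinearMap.adjoint (op Kf C) z = 0 := by
        apply ext_sl
        intro m
        rw [← e1, h, map_zero, map_zero]
      rw [h3, map_zero, map_zero]
  · intro h
    apply ext_sl
    intro l
    rw [map_zero]
    rcases l with i | m
    · rw [e3, h, map_zero]
    · rw [e1]
      have h3 : ContinuousLinearMap.adjoint (op Kf C) z = 0 := by
        apply eq_zero_of_adj
        rw [ContinuousLinearMap.adjoint_adjoint]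
        apply ext_sl
        intro j
        rw [← e2, h, map_zero, map_zero]
      rw [h3, map_zero]

theorem main2 (hK : ∀ z ∈ Kf, (starRingEnd ℂ) z ∈ Kf) (A : I ⊕ M → J ⊕ N → (G →₀ ℂ))
    (hA : ∀ i j t, A i j t ∈ Kf) (g : I ⊕ M → G) (h : J ⊕ N → G)
    (hc : ∀ i j, ∃ r : ℂ, A (inr i) (inr j) = Finsupp.single (g (inr i) * h (inr j)) r) :
    ∃ (n : ℤ) (B : I ⊕ J → I ⊕ J → (G →₀ ℂ)), (∀ i j t, B i j t ∈ Kf) ∧
      (∀ i j, B (inl i) (inr j) = 0) ∧ kerDimM A = n + kerDimM B := by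
  let _ := md (G := G) Kf
  obtain ⟨M', _, ic, R, C, hcore⟩ := core3 (k := Kf) (scB Kf A hA g h)
    (fun i j => (scB_const Kf A hA g h (inr i) (inr j) _ (hc i j).choose_spec).choose)
    (fun i j => (scB_const Kf A hA g h (inr i) (inr j) _ (hc i j).choose_spec).choose_spec)
  obtain ⟨E1, E2, E3⟩ := hcore (EE G Unit)
  classical
  obtain ⟨S, hS, hSk, hSa⟩ := exists_op A
  have key := ker_iff Kf A hA g h S hSa
  obtain ⟨B₁, hB₁, hk₁⟩ := ker_red Kf hK R C
  obtain ⟨B₂, hB₂, hk₂⟩ := ker_red' Kf hK (fun i => C (inr i)) B₁ hB₁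
  -- the restriction
  let π : EE G (I ⊕ M) →L[ℂ] EE G (I ⊕ M') :=
    ∑ k' : I ⊕ M', (il k').comp ((Ltr (g (ic k'))⁻¹).comp (sl (ic k')))
  have hπ : Eqv π := Eqv.sum' _ fun _ =>
    Eqv.comp' (elem_eqv _ _ _) (Eqv.comp' (elem_eqv _ _ _) (elem_eqv _ _ _))
  have hπs : ∀ (F : EE G (I ⊕ M)) k', sl k' (π F) = sx g F (ic k') := by
    intro F k'
    have h1 : π F = ∑ k', il k' (sx g F (ic k')) := by
      change (∑ k' : I ⊕ M', (il k').comp ((Ltr (g (ic k'))⁻¹).comp (sl (ic k')))) F = _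
      rw [sum_apply]
      rfl
    rw [h1, sl_sum]
  have h1 := rank_nullity π hπ (inv_ker S hS) (ContinuousLinearMap.isClosed_ker S)
  have h2 : (LinearMap.ker (S : EE G (I ⊕ M) →ₗ[ℂ] EE G (J ⊕ N)) ⊓
      LinearMap.ker (π : EE G (I ⊕ M) →ₗ[ℂ] EE G (I ⊕ M')) : Submodule ℂ (EE G (I ⊕ M))) = ⊥ := by
    rw [eq_bot_iff]
    rintro F ⟨hF1, hF2⟩
    change S F = 0 at hF1
    change π F = 0 at hF2
    have h3 := E2 (sx g F) ((key F).1 hF1) (fun i => by rw [← hπs, hF2, map_zero])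
    change F = 0
    ext ⟨u, i⟩
    have h4 := congrArg (fun f : EE G Unit => f ((g i)⁻¹ * u, ())) (congrFun h3 i)
    simp only at h4
    rw [sx_apply, mul_inv_cancel_left] at h4
    exact h4
  have h3 : Submodule.map (π : EE G (I ⊕ M) →ₗ[ℂ] EE G (I ⊕ M'))
      (LinearMap.ker (S : EE G (I ⊕ M) →ₗ[ℂ] EE G (J ⊕ N))) =
      LinearMap.ker (op Kf B₁ : EE G (I ⊕ M') →ₗ[ℂ] EE G (I ⊕ J)) := by
    ext x
    constructor
    · rintro ⟨F, hF, rfl⟩
      change S F = 0 at hF
      change op Kf B₁ (π F) = 0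
      rw [hk₁]
      simp only [hπs]
      exact E1 (sx g F) ((key F).1 hF)
    · intro hx
      change op Kf B₁ x = 0 at hx
      rw [hk₁] at hx
      obtain ⟨y, hy1, hy2⟩ := E3 (fun i => sl i x) hx.1 hx.2
      obtain ⟨F, hF⟩ : ∃ F : EE G (I ⊕ M), F = ∑ k, il k (Ltr (g k) (y k)) := ⟨_, rfl⟩
      have hFs : ∀ k, sx g F k = y k := by
        intro k
        have : sx g F k = Ltr (g k)⁻¹ (sl k F) := rfl
        rw [this, hF, sl_sum, ← ContinuousLinearMap.comp_apply, ← Ltr_mul, inv_mul_cancel,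
          Ltr_one]
        rfl
      refine ⟨F, (key F).2 fun j => ?_, ?_⟩
      · simp only [hFs]
        exact hy1 j
      · change π F = x
        apply ext_sl
        intro k'
        rw [hπs, hFs, hy2]
  rw [h2, h3, vd_bot, zero_add] at h1
  have h4 := ker_add_range (op Kf B₁) (op_eqv Kf B₁)
  have h5 := vd_range_adjoint (op Kf B₁) (op_eqv Kf B₁)
  have h6 := ker_add_range (ContinuousLinearMap.adjoint (op Kf B₁)) (op_eqv Kf B₁).adjoint
  have h7 : LinearMap.ker (ContinuousLinearMap.adjoint (op Kf B₁) :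
      EE G (I ⊕ J) →ₗ[ℂ] EE G (I ⊕ M')) =
      LinearMap.ker (op Kf B₂ : EE G (I ⊕ J) →ₗ[ℂ] EE G (I ⊕ J)) := by
    ext w
    exact hk₂ w
  rw [h7] at h6
  refine ⟨Fintype.card (I ⊕ M') - Fintype.card (I ⊕ J), fun k l => bk Kf (B₂ k l),
    fun i j t => bk_mem Kf _ _, fun i j => ?_, ?_⟩
  · simp only [hB₂, bk_zero]
  · rw [kerDimM_bk, hSk, h1]
    push_cast
    linarith

end

end Pool.Agent.X263.At
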